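import Pool.Agent.R246.SK.Defs

/-!
# SK-DS: doubly stochastic weights
-/

set_option autoImplicit false

open Filter Finset

namespace Pool.Agent.R567.SK

open Pool.Agent.R246.SK

theorem row_part {g : ℕ × ℕ → ℝ} (hg : Summable g) (h0 : ∀ p, 0 ≤ g p) (m : ℕ) :
    ∑ j ∈ range m, ∑' n, g (j, n + m) ≤ ∑' p, g p - ∑ p ∈ range m ×ˢ range m, g p := by
  have h1 : ∑ j ∈ range m, ∑' n, g (j, n) ≤ ∑' p, g p := by
    rw [hg.tsum_prod]
    exact hg.prod.sum_le_tsum _ (fun j _ => tsum_nonneg fun n => h0 _)
  have h2 : ∑ j ∈ range m, ∑' n, g (j, n) =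
      ∑ p ∈ range m ×ˢ range m, g p + ∑ j ∈ range m, ∑' n, g (j, n + m) := by
    rw [Finset.sum_product, ← Finset.sum_add_distrib]
    refine Finset.sum_congr rfl fun j _ => ?_
    exact ((hg.prod_factor j).sum_add_tsum_nat_add m).symm
  linarith

theorem s_ds : S_DS := by
  intro α β w M hw hrow hcol hsum hα hβ hM hgap
  have hM0 : 0 ≤ M := le_trans (abs_nonneg _) (hM 0)
  set g : ℕ × ℕ → ℝ := fun p => |α p.1 - β p.2| * w p.1 p.2 with hg
  set f : ℕ × ℕ → ℝ := fun p => (α p.1 - β p.2) * w p.1 p.2 with hf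
  have hg0 : ∀ p, 0 ≤ g p := fun p => mul_nonneg (abs_nonneg _) (hw _ _)
  have hfs : Summable f := Summable.of_norm_bounded hsum (fun p => by
    rw [hf, Real.norm_eq_abs, abs_mul, abs_of_nonneg (hw _ _)])
  have hT : Tendsto (fun N : ℕ => range (2 * N + 1) ×ˢ range (2 * N + 1)) atTop atTop := by
    refine tendsto_atTop_finset_of_monotone ?_ ?_
    · intro a b hab
      exact Finset.product_subset_product (Finset.range_mono (by omega))
        (Finset.range_mono (by omega))
    · intro p
      exact ⟨max p.1 p.2, Finset.mem_product.2 ⟨Finset.mem_range.2 (by omega),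
        Finset.mem_range.2 (by omega)⟩⟩
  have h1 : Tendsto (fun N : ℕ => ∑ p ∈ range (2 * N + 1) ×ˢ range (2 * N + 1), f p) atTop
      (nhds (∑' p, f p)) := hfs.hasSum.comp hT
  have h2 : Tendsto (fun N : ℕ => ∑ p ∈ range (2 * N + 1) ×ˢ range (2 * N + 1), g p) atTop
      (nhds (∑' p, g p)) := hsum.hasSum.comp hT
  have key : ∀ᶠ N : ℕ in atTop, ‖∑ j ∈ range (2 * N + 1), (α j - β j) -
      ∑ p ∈ range (2 * N + 1) ×ˢ range (2 * N + 1), f p‖ ≤
      ∑' p, g p - ∑ p ∈ range (2 * N + 1) ×ˢ range (2 * N + 1), g p := by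
    obtain ⟨N0, hN0⟩ := hgap (2 * M)
    filter_upwards [eventually_ge_atTop N0] with N hN
    have hB := hN0 N hN
    set m := 2 * N + 1 with hm
    set κ : ℝ := (β (2 * N) + β m) / 2 with hκ
    have a1 : ∀ j ∈ range m, α j ≤ κ := by
      intro j hj
      have h3 : α j ≤ α (2 * N) := hα (by have := Finset.mem_range.1 hj; omega)
      have h4 := (abs_le.1 (hM (2 * N))).2
      linarith
    have a2 : ∀ j, κ ≤ α (j + m) := by
      intro j
      have h3 : α m ≤ α (j + m) := hα (by omega)
      have h4 := (abs_le.1 (hM m)).1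
      linarith
    have b1 : ∀ j ∈ range m, β j ≤ κ := by
      intro j hj
      have h3 : β j ≤ β (2 * N) := hβ (by have := Finset.mem_range.1 hj; omega)
      linarith
    have b2 : ∀ j, κ ≤ β (j + m) := by
      intro j
      have h3 : β m ≤ β (j + m) := hβ (by omega)
      linarith
    -- tails
    have ra : ∀ j, ∑' n, w j (n + m) = 1 - ∑ n ∈ range m, w j n := by
      intro j
      have := (hrow j).summable.sum_add_tsum_nat_add m
      rw [(hrow j).tsum_eq] at this
      linarith
    have ca : ∀ n, ∑' j, w (j + m) n = 1 - ∑ j ∈ range m, w j n := by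
      intro n
      have := (hcol n).summable.sum_add_tsum_nat_add m
      rw [(hcol n).tsum_eq] at this
      linarith
    have hdiff : ∑ j ∈ range m, (α j - β j) - ∑ p ∈ range m ×ˢ range m, f p =
        -(∑ j ∈ range m, (κ - α j) * ∑' n, w j (n + m)) +
          ∑ n ∈ range m, (κ - β n) * ∑' j, w (j + m) n := by
      simp only [ra, ca]
      rw [hf, Finset.sum_product]
      have e1 : ∑ x ∈ range m, ∑ y ∈ range m, (α (x, y).1 - β (x, y).2) * w (x, y).1 (x, y).2 =
          ∑ x ∈ range m, α x * ∑ y ∈ range m, w x y -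
            ∑ y ∈ range m, β y * ∑ x ∈ range m, w x y := by
        have e2 : ∑ y ∈ range m, β y * ∑ x ∈ range m, w x y =
            ∑ x ∈ range m, ∑ y ∈ range m, β y * w x y := by
          rw [Finset.sum_comm]
          exact Finset.sum_congr rfl fun y _ => by rw [Finset.mul_sum]
        rw [e2, ← Finset.sum_sub_distrib]
        refine Finset.sum_congr rfl fun x _ => ?_
        rw [Finset.mul_sum, ← Finset.sum_sub_distrib]
        refine Finset.sum_congr rfl fun y _ => ?_
        ring
      have e3 : ∑ x ∈ range m, ∑ y ∈ range m, w x y = ∑ y ∈ range m, ∑ x ∈ range m, w x y :=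
        Finset.sum_comm
      have e4 : ∑ j ∈ range m, (κ - α j) * (1 - ∑ n ∈ range m, w j n) =
          ∑ j ∈ range m, (κ - α j) - (κ * ∑ j ∈ range m, ∑ n ∈ range m, w j n -
            ∑ j ∈ range m, α j * ∑ n ∈ range m, w j n) := by
        rw [Finset.mul_sum, ← Finset.sum_sub_distrib, ← Finset.sum_sub_distrib]
        exact Finset.sum_congr rfl fun j _ => by ring
      have e5 : ∑ n ∈ range m, (κ - β n) * (1 - ∑ j ∈ range m, w j n) =
          ∑ n ∈ range m, (κ - β n) - (κ * ∑ n ∈ range m, ∑ j ∈ range m, w j n -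
            ∑ n ∈ range m, β n * ∑ j ∈ range m, w j n) := by
        rw [Finset.mul_sum, ← Finset.sum_sub_distrib, ← Finset.sum_sub_distrib]
        exact Finset.sum_congr rfl fun j _ => by ring
      rw [e1, e4, e5, e3]
      simp only [Finset.sum_sub_distrib]
      ring
    rw [hdiff]
    -- bounds
    have hgr : ∀ j, Summable fun n => g (j, n) := fun j => hsum.prod_factor j
    have hP : ∑ j ∈ range m, (κ - α j) * ∑' n, w j (n + m) ≤
        ∑' p, g p - ∑ p ∈ range m ×ˢ range m, g p := by
      refine le_trans (Finset.sum_le_sum fun j hj => ?_) (row_part hsum hg0 m)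
      rw [← tsum_mul_left]
      refine Summable.tsum_le_tsum (fun n => ?_) ?_ ?_
      · have h3 : κ - α j ≤ |α j - β (n + m)| := by
          have := neg_abs_le (α j - β (n + m))
          have := b2 n
          linarith
        exact mul_le_mul_of_nonneg_right h3 (hw _ _)
      · exact ((summable_nat_add_iff m).2 (hrow j).summable).mul_left _
      · exact (summable_nat_add_iff m).2 (hgr j)
    have hP0 : 0 ≤ ∑ j ∈ range m, (κ - α j) * ∑' n, w j (n + m) :=
      Finset.sum_nonneg fun j hj => mul_nonneg (by have := a1 j hj; linarith)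
        (tsum_nonneg fun n => hw _ _)
    have hsum' : Summable (fun p : ℕ × ℕ => g p.swap) := (Equiv.prodComm ℕ ℕ).summable_iff.2 hsum
    have hgc : ∀ n, Summable fun j => g (j, n) := fun n => hsum'.prod_factor n
    have hQ : ∑ n ∈ range m, (κ - β n) * ∑' j, w (j + m) n ≤
        ∑' p, g p - ∑ p ∈ range m ×ˢ range m, g p := by
      have h4 := row_part hsum' (fun p => hg0 _) m
      have h5 : ∑' p : ℕ × ℕ, g p.swap = ∑' p, g p := (Equiv.prodComm ℕ ℕ).tsum_eq g
      have h6 : ∑ p ∈ range m ×ˢ range m, g p.swap = ∑ p ∈ range m ×ˢ range m, g p := by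
        rw [Finset.sum_product, Finset.sum_product_right]
        rfl
      rw [h5, h6] at h4
      refine le_trans (Finset.sum_le_sum fun n hn => ?_) h4
      rw [← tsum_mul_left]
      refine Summable.tsum_le_tsum (fun j => ?_) ?_ ?_
      · have h3 : κ - β n ≤ |α (j + m) - β n| := by
          have := le_abs_self (α (j + m) - β n)
          have := a2 j
          linarith
        exact mul_le_mul_of_nonneg_right h3 (hw _ _)
      · exact ((summable_nat_add_iff m).2 (hcol n).summable).mul_left _
      · exact (summable_nat_add_iff m).2 (hgc n)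
    have hQ0 : 0 ≤ ∑ n ∈ range m, (κ - β n) * ∑' j, w (j + m) n :=
      Finset.sum_nonneg fun n hn => mul_nonneg (by have := b1 n hn; linarith)
        (tsum_nonneg fun n => hw _ _)
    rw [Real.norm_eq_abs, abs_le]
    constructor <;> linarith
  have h3 : Tendsto (fun N : ℕ => ∑ j ∈ range (2 * N + 1), (α j - β j) -
      ∑ p ∈ range (2 * N + 1) ×ˢ range (2 * N + 1), f p) atTop (nhds 0) := by
    refine squeeze_zero_norm' key ?_
    have := (tendsto_const_nhds (x := ∑' p, g p) (f := (atTop : Filter ℕ))).sub h2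
    simpa using this
  have h4 := h3.add h1
  simpa using h4

end Pool.Agent.R567.SK
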