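import Pool.Agent.R246.SK.Defs

/-!
# SK-SUM: the trace
-/

set_option autoImplicit false

open Filter Finset MeasureTheory
open scoped ComplexConjugate

namespace Pool.Agent.R567.SK

open Pool.Agent.R246.SK

/-- the kernel in the variables `(m - k, k)` -/
noncomputable def cc (p k : ℤ) : ℝ := |((p + k : ℤ) : ℝ)| * |(k : ℝ)| - ((p + k : ℤ) : ℝ) * (k : ℝ)

theorem poly_sum (x : ℝ) (n : ℕ) : ∑ j ∈ range n, 2 * (x - (j : ℝ)) * (j : ℝ) =
    x * n * (n - 1) - (n - 1) * n * (2 * n - 1) / 3 := by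
  induction n with
  | zero => simp
  | succ n ih =>
    rw [Finset.sum_range_succ, ih]
    push_cast
    ring

theorem cc_nat (P : ℕ) : HasSum (fun k : ℤ => cc (P : ℤ) k) (((P : ℝ) ^ 3 - P) / 3) := by
  have hinj : Function.Injective (fun j : ℕ => -(j : ℤ)) := by
    intro i j h
    have : -(i : ℤ) = -(j : ℤ) := h
    omega
  have hsupp : ∀ k : ℤ, k ∉ Set.range (fun j : ℕ => -(j : ℤ)) → cc (P : ℤ) k = 0 := by
    intro k hk
    have hk0 : 0 < k := by
      by_contra hcon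
      exact hk ⟨k.natAbs, by simp only []; omega⟩
    have h1 : (0 : ℝ) < (k : ℝ) := by exact_mod_cast hk0
    have h2 : (0 : ℝ) ≤ (((P : ℤ) + k : ℤ) : ℝ) := by
      have : (0 : ℤ) ≤ (P : ℤ) + k := by omega
      exact_mod_cast this
    unfold cc
    rw [abs_of_nonneg h2, abs_of_pos h1]
    ring
  refine (Function.Injective.hasSum_iff hinj hsupp).1 ?_
  have hval : ∀ j : ℕ, ((fun k : ℤ => cc (P : ℤ) k) ∘ (fun j : ℕ => -(j : ℤ))) j =
      |(P : ℝ) - j| * j + ((P : ℝ) - j) * j := by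
    intro j
    simp only [Function.comp, cc]
    push_cast
    rw [abs_neg, Nat.abs_cast]
    rw [show (P : ℝ) + -(j : ℝ) = (P : ℝ) - j by ring]
    ring
  have hz : ∀ j ∉ range (P + 1), ((fun k : ℤ => cc (P : ℤ) k) ∘ (fun j : ℕ => -(j : ℤ))) j = 0 := by
    intro j hj
    rw [hval]
    have h1 : P < j := by
      have := Finset.mem_range.not.1 hj
      omega
    have h2 : (P : ℝ) < (j : ℝ) := by exact_mod_cast h1
    rw [abs_of_neg (by linarith)]
    ring
  have hs : HasSum ((fun k : ℤ => cc (P : ℤ) k) ∘ (fun j : ℕ => -(j : ℤ)))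
      (∑ j ∈ range (P + 1), ((fun k : ℤ => cc (P : ℤ) k) ∘ (fun j : ℕ => -(j : ℤ))) j) :=
    hasSum_sum_of_ne_finset_zero hz
  have e : ∑ j ∈ range (P + 1), ((fun k : ℤ => cc (P : ℤ) k) ∘ (fun j : ℕ => -(j : ℤ))) j =
      ((P : ℝ) ^ 3 - P) / 3 := by
    have e1 : ∑ j ∈ range (P + 1), ((fun k : ℤ => cc (P : ℤ) k) ∘ (fun j : ℕ => -(j : ℤ))) j =
        ∑ j ∈ range (P + 1), 2 * ((P : ℝ) - (j : ℝ)) * (j : ℝ) := by
      refine Finset.sum_congr rfl fun j hj => ?_
      rw [hval]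
      have h1 : j ≤ P := by
        have := Finset.mem_range.1 hj
        omega
      have h2 : (j : ℝ) ≤ (P : ℝ) := by exact_mod_cast h1
      rw [abs_of_nonneg (by linarith)]
      ring
    rw [e1, poly_sum]
    push_cast
    ring
  rw [e] at hs
  exact hs

theorem cc_neg (p k : ℤ) : cc (-p) (-k) = cc p k := by
  unfold cc
  have : ((-p + -k : ℤ) : ℝ) = -((p + k : ℤ) : ℝ) := by push_cast; ring
  rw [this]
  push_cast
  rw [abs_neg, abs_neg]
  ring

theorem cc_sum (p : ℤ) : HasSum (fun k : ℤ => cc p k) ((|(p : ℝ)| ^ 3 - |(p : ℝ)|) / 3) := by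
  rcases Int.eq_nat_or_neg p with ⟨P, rfl | rfl⟩
  · have := cc_nat P
    simpa using this
  · have h := cc_nat P
    have h2 : HasSum (fun k : ℤ => cc (P : ℤ) (-k)) (((P : ℝ) ^ 3 - P) / 3) :=
      (Equiv.neg ℤ).hasSum_iff.2 h
    have h3 : (fun k : ℤ => cc (P : ℤ) (-k)) = fun k : ℤ => cc (-(P : ℤ)) k := by
      funext k
      rw [← cc_neg, neg_neg]
    rw [h3] at h2
    simpa using h2

theorem conj_ac (a : ℝ → ℝ) (n : ℤ) : ac a (-n) = conj (ac a n) := by
  unfold ac fc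
  rw [map_mul, Complex.conj_ofReal]
  congr 1
  rw [intervalIntegral.integral_of_le (by positivity), intervalIntegral.integral_of_le (by positivity),
    ← integral_conj]
  refine integral_congr_ae (Filter.Eventually.of_forall fun t => ?_)
  simp only [map_mul, Complex.conj_ofReal, neg_neg]
  congr 1
  unfold ee
  rw [← Complex.exp_conj]
  congr 1
  simp

theorem s_sum (h1 : S_FT1) (hK : S_KS) : S_SUM := by
  intro a ha
  have hSP : SP (fun t => (a t : ℂ)) := by
    refine ⟨Complex.ofRealCLM.contDiff.comp ha.1, fun t => ?_⟩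
    simp only []
    rw [ha.2.1]
  obtain ⟨C, hC⟩ := (h1 _ hSP).1 0
  have hC' : ∀ n, ‖ac a n‖ ≤ C := by
    intro n
    have := hC n
    rw [pow_zero, mul_one] at this
    exact this
  have hC0 : 0 ≤ C := le_trans (norm_nonneg _) (hC' 0)
  -- the real family
  set F : ℤ × ℤ → ℝ := fun p => ‖ac a (p.1 - p.2)‖ ^ 2 * (|(p.1 : ℝ)| * |(p.2 : ℝ)| - p.1 * p.2)
    with hF
  have hterm : ∀ p : ℤ × ℤ, Kk a p.1 p.2 * ac a (p.2 - p.1) = ((F p : ℝ) : ℂ) := by
    rintro ⟨m, k⟩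
    simp only [Kk, hF]
    have e1 : ac a (k - m) = conj (ac a (m - k)) := by
      rw [← conj_ac]
      congr 1
      ring
    rw [e1]
    have e2 : ac a (m - k) * conj (ac a (m - k)) = ((‖ac a (m - k)‖ ^ 2 : ℝ) : ℂ) := by
      rw [Complex.mul_conj, Complex.normSq_eq_norm_sq]
    have e3 : (((|m| * |k| - m * k : ℤ)) : ℂ) = ((|(m : ℝ)| * |(k : ℝ)| - m * k : ℝ) : ℂ) := by
      have e30 : (((|m| * |k| - m * k : ℤ)) : ℝ) = |(m : ℝ)| * |(k : ℝ)| - m * k := by
        push_cast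
        rfl
      rw [← e30, Complex.ofReal_intCast]
    rw [mul_right_comm, e2, e3, ← Complex.ofReal_mul]
  have hFs : Summable F := by
    have hb := (hK a ha).mul_left C
    refine Summable.of_norm_bounded hb (fun p => ?_)
    have e4 : ‖F p‖ = ‖Kk a p.1 p.2‖ * ‖ac a (p.2 - p.1)‖ := by
      rw [← norm_mul, hterm p, Complex.norm_real]
    rw [e4]
    have e5 : (1 : ℝ) ≤ (1 + |(p.1 : ℝ)|) ^ 2 := by
      have := abs_nonneg (p.1 : ℝ)
      nlinarith
    have e6 : (1 : ℝ) ≤ (1 + |(p.2 : ℝ)|) ^ 2 := by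
      have := abs_nonneg (p.2 : ℝ)
      nlinarith
    calc ‖Kk a p.1 p.2‖ * ‖ac a (p.2 - p.1)‖ ≤ ‖Kk a p.1 p.2‖ * C :=
          mul_le_mul_of_nonneg_left (hC' _) (norm_nonneg _)
      _ = C * (‖Kk a p.1 p.2‖ * 1 * 1) := by ring
      _ ≤ C * (‖Kk a p.1 p.2‖ * (1 + |(p.1 : ℝ)|) ^ 2 * (1 + |(p.2 : ℝ)|) ^ 2) := by
          gcongr
  -- change of variables
  let e : ℤ × ℤ ≃ ℤ × ℤ :=
    { toFun := fun q => (q.1 + q.2, q.2)
      invFun := fun p => (p.1 - p.2, p.2)
      left_inv := fun q => by simp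
      right_inv := fun p => by simp }
  have hGs : Summable (F ∘ e) := e.summable_iff.2 hFs
  have hG : ∀ p k : ℤ, (F ∘ e) (p, k) = ‖ac a p‖ ^ 2 * cc p k := by
    intro p k
    simp only [Function.comp, hF, e, Equiv.coe_fn_mk, cc]
    rw [add_sub_cancel_right]
  have hin : ∀ p : ℤ, ∑' k, (F ∘ e) (p, k) = 1 / 3 * ZZ a p := by
    intro p
    simp only [hG]
    rw [tsum_mul_left, (cc_sum p).tsum_eq]
    unfold ZZ
    ring
  have hsZ : Summable (fun p : ℤ => 1 / 3 * ZZ a p) := by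
    have := hGs.prod
    simpa only [hin] using this
  refine ⟨?_, ?_⟩
  · have := hsZ.mul_left 3
    refine this.congr fun p => ?_
    ring
  · simp only [hterm]
    rw [← Complex.ofReal_tsum]
    congr 1
    rw [← e.tsum_eq F]
    have := hGs.tsum_prod
    simp only [hin] at this
    rw [tsum_mul_left] at this
    exact this

end Pool.Agent.R567.SK
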